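import Pool.Agent.V113.Rec.Sym

set_option autoImplicit false

namespace Pool.Agent.Results.MP_1dfc85_pr.RecoveryImpossible

open Filter Topology
open Pool.Agent.V113.Rec

/-- Exact recovery of the hidden vertex set of an Erdős–Rényi subgraph pair is impossible below
`(m/2) h(p) = log n`. First part: a uniform quantitative form. Second part: the statement of Q1
(`Real.binEntropy` is the binary entropy with natural logarithm). -/
theorem result :
    (∃ c : ℝ, 0 < c ∧ ∃ n0 : ℕ, ∀ n m : ℕ, n0 ≤ n → 1 ≤ m → m ≤ n - 1 → ∀ p : ℝ, 0 < p → p < 1 →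
      (m : ℝ) / 2 * Real.binEntropy p - Real.log n ≤ -83 →
      ∀ est : SimpleGraph (Fin n) → SimpleGraph (Fin m) → PMF (Finset (Fin n)),
        recoverProb n m p est ≤ 1 - c) ∧
    (∀ (m : ℕ → ℕ) (p : ℕ → ℝ), (∀ n, 2 ≤ n → 1 ≤ m n ∧ m n ≤ n - 1) → (∀ n, 0 < p n ∧ p n < 1) →
      Tendsto (fun n => (m n : ℝ) / 2 * Real.binEntropy (p n) - Real.log n) atTop atBot →
      ∀ est : (n : ℕ) → SimpleGraph (Fin n) → SimpleGraph (Fin (m n)) → PMF (Finset (Fin n)),
        ¬ Tendsto (fun n => recoverProb n (m n) (p n) (est n)) atTop (𝓝 1)) := by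
  obtain ⟨c, hc, n0, h⟩ := main_all
  constructor
  · refine ⟨c, hc, max n0 2, ?_⟩
    intro n m hn hm hmn p h0 h1 hh est
    rw [recover_eq]
    have h2 : n0 ≤ n := le_trans (le_max_left _ _) hn
    have h3 : 2 ≤ n := le_trans (le_max_right _ _) hn
    exact h n m h2 hm (by omega) p h0 h1 hh est
  · intro m p hm hp hT est hcon
    have hev : ∀ᶠ n in atTop, recoverProb n (m n) (p n) (est n) ≤ 1 - c := by
      filter_upwards [hT.eventually_le_atBot (-83), eventually_ge_atTop n0, eventually_ge_atTop 2]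
        with n h1 h2 h3
      rw [recover_eq]
      exact h n (m n) h2 (hm n h3).1 (by have := (hm n h3).2; omega) (p n) (hp n).1 (hp n).2 h1 (est n)
    have hle : (1 : ℝ) ≤ 1 - c := le_of_tendsto hcon hev
    linarith

end Pool.Agent.Results.MP_1dfc85_pr.RecoveryImpossible
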